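import Pool.Agent.D0H61.AB.Stm

/-!
# The exact order of the maximal quality: sharp family, lower constant `2 √2`

Second batch: the lower half with the explicit constant `2 √2 - ε`.
-/

set_option autoImplicit false

namespace Pool.Agent.D0H61.AB

open Filter Topology MeasureTheory Finset

open Classical in
/-- the primes in `(e ^ u, e ^ (u + η)]` -/
noncomputable def PB (u η : ℝ) : Finset ℕ :=
  (Icc 1 ⌊Real.exp (u + η)⌋₊).filter fun p => p.Prime ∧ Real.exp u < p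

/-- **16 PNTB** (prime number theorem, starting library). -/
def S_PNTB : Prop := ∀ η : ℝ, 0 < η → η < 1 → ∃ u₀ : ℝ, 1 ≤ u₀ ∧ ∀ u : ℝ, u₀ ≤ u →
  (1 - 2 * η) * (η * Real.exp (u + η) / (u + η)) ≤ ((PB u η).card : ℝ)

/-- **17 SIMP** (Mathlib only). The number of the integer points of a simplex is at least its volume:
`#{f : Fin n → ℕ | ∑ f i w i ≤ M} ≥ M ^ n / (n ! ∏ w i)`, here for functions on a finite set `P` (`Finset.pi`, bounded by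
`⌊M / w p⌋`). Induction over `P`, `∑_{f ≤ M / w} (M - f w) ^ (n - 1) ≥ M ^ n / (n w)` (sum against integral of a decreasing
function), or: the unit cubes at the integer points cover the simplex. -/
def S_SIMP : Prop := ∀ (ι : Type) (P : Finset ι) (w : ι → ℝ) (M : ℝ), (∀ i ∈ P, 0 < w i) → 0 ≤ M →
  ∃ F : Finset (ι → ℕ), M ^ P.card / (P.card.factorial * ∏ i ∈ P, w i) ≤ F.card ∧
    ∀ f ∈ F, (∀ i, i ∉ P → f i = 0) ∧ ∑ i ∈ P, (f i : ℝ) * w i ≤ M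

/-- **18 BIN** (Mathlib only): `choose q m ≥ ((q - m) / m) ^ m e ^ m / (e m)` (`m ! ≤ e m (m / e) ^ m`), and the bound
for the factorial. -/
def S_BIN : Prop := (∀ m : ℕ, 1 ≤ m → (m.factorial : ℝ) ≤ Real.exp 1 * m * ((m : ℝ) / Real.exp 1) ^ m) ∧
  ∀ q m : ℕ, 1 ≤ m → m ≤ q →
    (((q : ℝ) - m) / m) ^ m * Real.exp m / (Real.exp 1 * m) ≤ (q.choose m : ℝ)

/-- **19 FAM2** (from PNTB, SIMP, BIN). Let `η` be small, `A` large. `u_i = l + η i`, `0 ≤ i < I`, `I = ⌊(A - 1) l / η⌋`,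
`m_i = ⌊η e ^ l / u_{i+1} ^ 2⌋`, `n = ∑ m_i`, so `(1 - 1 / A - 2 η) e ^ l / l ≤ n ≤ e ^ l / l`. `B` = the numbers
`∏ p ∈ P, p ^ (8 + f p)` with `P = ⋃ P_i`, `P_i ⊆ PB u_i η`, `#P_i = m_i`, `∑ (8 + f p) log p ≤ L := e ^ (2 l) / l`. For every `P` the
number of the `f` is `≥ L' ^ n / (n ! ∏ u_{i+1} ^ m_i)` with `L' = L - 8 ∑ log p ≥ (1 - η) L`. `Z = ∏ e ^ (u_{i+1} m_i)`. So
`log (#B / Z) ≥ ∑ m_i (log (π_i - m_i) - log m_i + 1 - u_{i+1} - log u_{i+1}) + n log L' - log n ! - O(l ^ 2)`; as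
`π_i - m_i ≥ (1 - 3 η) η e ^ u_{i+1} / u_{i+1}` and `log m_i ≤ log η + l - 2 log u_{i+1}` the bracket is `≥ 1 - l - O(η)`, and
`log L' - log n ≥ l - O(η)`: altogether `≥ n (2 - O(η))`. (`#B` : different `(P, f)` give different numbers.) -/
def S_FAM2 : Prop := ∀ ε : ℝ, 0 < ε → ∃ l₀ : ℕ, 1 ≤ l₀ ∧ ∀ l : ℕ, l₀ ≤ l → ∃ (B : Finset ℕ) (n : ℕ) (Z : ℝ),
  (n : ℝ) ≤ Real.exp l / l ∧ 1 ≤ Z ∧ Z * Real.exp ((2 - ε) * (Real.exp l / l)) ≤ B.card ∧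
  (B.card : ℝ) ≤ Real.exp (ε * (Real.exp (2 * l) / l)) ∧
  ∀ b ∈ B, 0 < b ∧ b.primeFactors.card ≤ n ∧ (∀ p ∈ b.primeFactors, Real.exp l < p ∧ 8 ≤ b.factorization p) ∧
    (rad b : ℝ) ≤ Z ∧ (b : ℝ) ≤ Real.exp (Real.exp (2 * l) / l)

/-- **20 LOC2** (from FAM2, NEAR, OVL, FST, PZ; the same proof as LOC). `k` with
`2 ^ k ≤ #B e ^ (-η e ^ l / l) < 2 ^ (k + 1)`, `3 ^ t ≈ 4 ^ k ≤ #B ^ 2 ≤ exp (2 η e ^ (2 l) / l)`, so `log c ≤ (1 + 3 η) e ^ (2 l) / l`,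
`V c ≤ (1 + 4 η) e ^ l / (l √2)` (`log log c ≥ ...`: `x / log x` is increasing for `x ≥ e`, and `log (e ^ (2 l) / l) = 2 l - log l`),
`rad (b c) ≤ 12 c Z / 2 ^ k * ... ≤ 12 c exp (-(2 - 3 η) e ^ l / l)`. -/
def S_LOC2 : Prop := ∀ ε : ℝ, 0 < ε → ∃ C₁ : ℝ, 0 < C₁ ∧ ∀ (s x y : ℝ) (M : ℕ), 0 < x → x < y → y ≤ x + 1 →
  ENNReal.ofReal ((y - x) / C₁) ≤
    volume (Set.Icc x y ∩ {α : ℝ | ∃ b c : ℕ, M ≤ b ∧ Good (2 * Real.sqrt 2 - ε) s α b c})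

/-- **21 LOW2** (from LOC2, the same proof as LOW). -/
def S_LOW2 : Prop := ∀ ε : ℝ, 0 < ε → ∀ s : ℝ, ∀ᵐ α ∂(volume.restrict (Set.Ioi (0 : ℝ))),
  {x : ℕ × ℕ | Good (2 * Real.sqrt 2 - ε) s α x.1 x.2}.Infinite

end Pool.Agent.D0H61.AB
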