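import Mathlib

/-!
# The exact order of the maximal quality for almost every coefficient: statements of the modules

`rad n` is the product of the primes dividing `n`, `V c = √(log c / log log c)`.

UPPER HALF. `trip N Y`: pairwise coprime triples up to `N` with `rad (abc) ≤ Y`. For `0 < σ ≤ 1`
`#trip ≤ Y ^ (1 - σ) N ^ (3 σ) F ^ 3`, `F = ∑ n ≤ N, n ^ (-σ) rad n ^ (σ - 1) ≤ ∏ p ≤ N, (1 + 1 / (p (1 - p ^ (-σ))))`,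
and `1 / (1 - p ^ (-σ)) ≤ 1 / (σ log p) + 1`. With `σ = √(3 / (L log L))`, `L = log N`, one gets
`#trip ≤ Y exp ((4 √3 + ε) √(L / log L))`, and Borel-Cantelli gives the upper half.

LOWER HALF. `b = 3 ^ t * b₁`, `b₁` in a family `B` (primes of `b₁` in `(e ^ l, e ^ (2 l)]`, exponents `≥ 8`,
`rad b₁ ≤ Z`, `#B ≥ Z e ^ n`, `n ≍ e ^ l / l`), `c` divisible by `2 ^ k` with `2 ^ k ≈ #B e ^ (-n / 2)`: second moment.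
-/

set_option autoImplicit false

namespace Pool.Agent.D0H61.AB

open Filter Topology MeasureTheory Finset

/-- the product of the primes dividing `n` -/
def rad (n : ℕ) : ℕ := ∏ p ∈ n.primeFactors, p

/-- `√(log c / log log c)` -/
noncomputable def V (c : ℝ) : ℝ := Real.sqrt (Real.log c / Real.log (Real.log c))

/-- a triple of pairwise coprime positive integers -/
def PC (t : ℕ × ℕ × ℕ) : Prop :=
  0 < t.1 ∧ 0 < t.2.1 ∧ 0 < t.2.2 ∧ Nat.Coprime t.1 t.2.1 ∧ Nat.Coprime t.1 t.2.2 ∧ Nat.Coprime t.2.1 t.2.2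

open Classical in
/-- the pairwise coprime triples up to `N` with `rad (abc) ≤ Y` -/
noncomputable def trip (N : ℕ) (Y : ℝ) : Finset (ℕ × ℕ × ℕ) :=
  ((Icc 1 N) ×ˢ ((Icc 1 N) ×ˢ (Icc 1 N))).filter fun t => PC t ∧ (rad (t.1 * t.2.1 * t.2.2) : ℝ) ≤ Y

/-- **1 MER** (40 lines). `∑_{p > z} 1 / (p log p) ≤ (1 + ε) / log z` for `z ≥ z₀(ε)`. From Mertens' first theorem
`∑_{p ≤ x} log p / p = log x + O(1)` (starting library) or the prime number theorem: blocks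
`(z ^ (q ^ i), z ^ (q ^ (i+1))]`, `q = 1 + η`: each is at most `(η q ^ i l + C) / (q ^ i l) ^ 2`, `l = log z`; the sum over `i`
is at most `(1 + η) / l + C' / l ^ 2`. -/
def S_MER : Prop := ∀ ε : ℝ, 0 < ε → ∃ z₀ : ℝ, 2 ≤ z₀ ∧ ∀ z : ℝ, z₀ ≤ z → ∀ P : Finset ℕ,
  (∀ p ∈ P, p.Prime ∧ z < (p : ℝ)) → ∑ p ∈ P, 1 / ((p : ℝ) * Real.log p) ≤ (1 + ε) / Real.log z

/-- **2 PR** (from MER). Split at `z = (1 / σ) ^ (1 - η)`: the at most `z` primes `p ≤ z` contribute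
`≤ z * log (1 + 2 / σ)` to the logarithm, `= o (1 / (σ log (1 / σ)))`; for `p > z` use `log (1 + x) ≤ x` and MER:
`≤ (1 + η) / (σ (1 - η) log (1 / σ))`. -/
def S_PR : Prop := ∀ ε : ℝ, 0 < ε → ∃ σ₀ : ℝ, 0 < σ₀ ∧ σ₀ < 1 ∧ ∀ σ : ℝ, 0 < σ → σ ≤ σ₀ → ∀ P : Finset ℕ,
  (∀ p ∈ P, p.Prime) →
    ∏ p ∈ P, (1 + 1 / ((p : ℝ) * (σ * Real.log p))) ≤ Real.exp ((1 + ε) / (σ * Real.log (1 / σ)))

/-- **3 M3** (starting library: Mertens / `∑_{p ≤ N} 1 / p ≤ log log N + C`; any power of `log N` is fine: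
`D` is at the choice of the prover). -/
def S_M3 : Prop := ∃ C D : ℝ, 0 < C ∧ 0 < D ∧ ∀ N : ℕ, 2 ≤ N →
  ∏ p ∈ (Icc 1 N).filter Nat.Prime, (1 + 1 / (p : ℝ)) ≤ C * Real.log N ^ D

/-- **4 EUL** (Mathlib: `EulerProduct.summable_and_hasSum_smoothNumbers_prod_primesBelow_tsum` for
`f n = n ^ (-σ) * rad n ^ (σ - 1)`, `f (p ^ e) = p ^ (-σ e + σ - 1)` for `e ≥ 1`; every `n ≤ N` is `N + 1`-smooth). -/
def S_EUL : Prop := ∀ σ : ℝ, 0 < σ → σ ≤ 1 → ∀ N : ℕ,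
  ∑ n ∈ Icc 1 N, (n : ℝ) ^ (-σ) * (rad n : ℝ) ^ (σ - 1) ≤
    ∏ p ∈ (Icc 1 N).filter Nat.Prime, (1 + 1 / ((p : ℝ) * (1 - (p : ℝ) ^ (-σ))))

/-- **5 CNT** (Mathlib only). For `t` in `trip`: `1 ≤ (N / a) ^ σ (N / b) ^ σ (N / c) ^ σ (Y / rad) ^ (1 - σ)` and
`rad (abc) = rad a rad b rad c`; then drop the coprimality and the condition on `rad`. -/
def S_CNT : Prop := ∀ σ : ℝ, 0 < σ → σ ≤ 1 → ∀ (N : ℕ) (Y : ℝ), 0 < Y →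
  ((trip N Y).card : ℝ) ≤ Y ^ (1 - σ) * (N : ℝ) ^ (3 * σ) *
    (∑ n ∈ Icc 1 N, (n : ℝ) ^ (-σ) * (rad n : ℝ) ^ (σ - 1)) ^ 3

/-- **6 BND** (from PR, M3, EUL, CNT). `L = log N`, `σ = √(3 / (L log L))`. `1 / (p (1 - p ^ (-σ))) ≤ 1 / (p σ log p) + 1 / p`
and `1 + x + y ≤ (1 + x) (1 + y)`, so `F ≤ exp ((1 + η) / (σ log (1 / σ))) * C L ^ D`, `log (1 / σ) ≥ (log L) / 2`, so the
first factor cubed is `≤ exp (3 (1 + η) 2 / (σ log L)) = exp ((1 + η) 2 √3 √(L / log L))`;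
`Y ^ (1 - σ) N ^ (3 σ) = Y (N ^ 3 / Y) ^ σ ≤ Y exp (σ (2 L + K √L))`, `2 σ L = 2 √3 √(L / log L)`. -/
def S_BND : Prop := ∀ ε K : ℝ, 0 < ε → 0 ≤ K → ∃ N₀ : ℕ, ∀ N : ℕ, N₀ ≤ N → ∀ Y : ℝ,
  (N : ℝ) * Real.exp (-K * Real.sqrt (Real.log N)) ≤ Y →
    ((trip N Y).card : ℝ) ≤ Y * Real.exp ((4 * Real.sqrt 3 + ε) * V N)

/-- **7 UP** (from BND; Borel-Cantelli, `measure_setOf_frequently_eq_zero` or `ae_eventually_notMem` for the countable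
family of the triples). Blocks `2 ^ j ≤ c < 2 ^ (j + 1)`, `N = ⌈C⌉ 2 ^ (j + 1)`, `Y = 2 ^ (j+1) exp (-(4 √3 + ε) V (2 ^ j))`
(`V` is increasing for large arguments, `V N ≤ V (2 ^ j) + 1` for large `j`): the sum of the measures over a block is
`≤ C 2 ^ (-j) * Y exp ((4 √3 + ε / 2) V N) ≤ C' exp (-(ε / 2) V (2 ^ j))`, summable as `V (2 ^ j) ≥ j ^ (1 / 4)`. -/
def S_UP : Prop := ∀ (Ω : Type) [MeasurableSpace Ω] (μ : Measure Ω) (E : ℕ × ℕ × ℕ → Set Ω) (C ε : ℝ), 1 ≤ C → 0 < ε →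
  (∀ t, PC t → μ (E t) ≤ ENNReal.ofReal (C / (t.2.2 : ℝ))) →
  ∀ᵐ ω ∂μ, {t : ℕ × ℕ × ℕ | PC t ∧ (t.1 : ℝ) ≤ C * t.2.2 ∧ (t.2.1 : ℝ) ≤ C * t.2.2 ∧ ω ∈ E t ∧
    (rad (t.1 * t.2.1 * t.2.2) : ℝ) ≤ t.2.2 * Real.exp (-(4 * Real.sqrt 3 + ε) * V t.2.2)}.Finite

/-! ## The lower half -/

open Classical in
/-- the primes in `(e ^ (j - 1), e ^ j]` -/
noncomputable def PJ (j : ℕ) : Finset ℕ :=
  (Icc 1 ⌊Real.exp j⌋₊).filter fun p => p.Prime ∧ Real.exp ((j : ℝ) - 1) < p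

/-- **8 CHEB** (starting library: prime number theorem, or Chebyshev). -/
def S_CHEB : Prop := ∃ c : ℝ, 0 < c ∧ ∃ j₀ : ℕ, 1 ≤ j₀ ∧ ∀ j : ℕ, j₀ ≤ j →
  c * Real.exp j / j ≤ ((PJ j).card : ℝ)

/-- **9 FAM** (from CHEB). `m = ⌊c₁ e ^ l / l ^ 2⌋`, `E = ⌊e ^ l / (4 c₁ l)⌋`, `n = m l`; `B` = the set of the
`∏ p ∈ P, p ^ (e p)` with `P = ⋃ P_j`, `P_j ⊆ PJ j`, `#P_j = m`, `l < j ≤ 2 l`, `E ≤ e p ≤ 2 E`;
`Z = ∏ j, e ^ (j m)`. `#B = ∏ j, choose (#PJ j) m * (E + 1) ^ m` (unique factorisation), `choose π m ≥ (π / m) ^ m`, so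
`#B / Z ≥ (c (E + 1) / (2 l m)) ^ n ≥ (c / (8 c₁ ^ 2)) ^ n ≥ e ^ n` for `c₁` small; `log b ≤ n (2 E) (2 l) ≤ e ^ (2 l) / l`. -/
def S_FAM : Prop := ∃ κ : ℝ, 0 < κ ∧ ∃ l₀ : ℕ, 1 ≤ l₀ ∧ ∀ l : ℕ, l₀ ≤ l → ∃ (B : Finset ℕ) (n : ℕ) (Z : ℝ),
  κ * Real.exp l / l ≤ n ∧ (n : ℝ) ≤ Real.exp l / 6 ∧ 1 ≤ Z ∧ Z * Real.exp n ≤ B.card ∧
  ∀ b ∈ B, 0 < b ∧ b.primeFactors.card ≤ n ∧ (∀ p ∈ b.primeFactors, Real.exp l < p ∧ 8 ≤ b.factorization p) ∧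
    (rad b : ℝ) ≤ Z ∧ (b : ℝ) ≤ Real.exp (Real.exp (2 * l) / l)

/-- **10 NEAR** (Mathlib only). For `b` fixed write `b = g u`, `b' = g v`, `g = gcd`: `b' = b v / u`, `v = v₁ v₂` with `v₁`
composed of primes of `b`, `v₂` coprime to `b`, so all exponents of `v₂` are those of `b'`, hence `≥ 8`. The map
`b' ↦ (u, v₁, v₂)` is injective and `g / max = 1 / max u v ≤ (u v₁ v₂) ^ (-1/2)`. The sums over `u`, `v₁` are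
`≤ ∏ p ∣ b, (1 - p ^ (-1/2))⁻¹ ≤ exp (4 n e ^ (-l / 2))` each, the sum over `v₂` is
`≤ ∏ p, (1 + ∑ e ≥ 8, p ^ (-e / 2)) ≤ exp (∑ 4 p ^ (-4)) ≤ e ^ 8`. -/
def S_NEAR : Prop := ∃ l₀ : ℕ, ∀ l : ℕ, l₀ ≤ l → ∀ (n : ℕ) (B : Finset ℕ),
  (∀ b ∈ B, 0 < b ∧ b.primeFactors.card ≤ n ∧ (∀ p ∈ b.primeFactors, Real.exp l < p ∧ 8 ≤ b.factorization p)) →
  ∀ b ∈ B, ∑ b' ∈ B, (Nat.gcd b b' : ℝ) / (max b b' : ℕ) ≤ Real.exp (8 * n * Real.exp (-(l : ℝ) / 2) + 8)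

/-- `α b + s` is within 1 of a multiple of `2 ^ k` -/
def Dv (k : ℕ) (s : ℝ) (b : ℕ) : Set ℝ := {α : ℝ | ∃ c : ℤ, |α * b + s - 2 ^ k * c| ≤ 1}

/-- **11 OVL** (Mathlib only). `b = g u`, `b' = g v`, `t = α g / 2 ^ k`, `δ = 2 ^ (-k)`, `s' = s δ`: `|t u + s' - c| ≤ δ`,
`|t v + s' - c'| ≤ δ`. So `|v c - u c' - (v - u) s'| ≤ δ (u + v)`: at most `1 + 2 δ (u + v)` values of `v c - u c'`, and for each one
class of `(c, c')` modulo `(u, v) ℤ`; each pair contributes at most `2 δ / max u v` to the measure in `t`, the set is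
1-periodic in `t`, and the interval of `t` has length `(y - x) g / 2 ^ k ≥ 1`. (A direct count of the pairs with
`α` in `[x, y]` gives the same.) -/
def S_OVL : Prop := ∃ C : ℝ, 0 < C ∧ ∀ (k : ℕ) (s x y : ℝ) (b b' : ℕ), 3 ≤ k → x < y → 0 < b → 0 < b' →
  (2 : ℝ) ^ k ≤ (y - x) * Nat.gcd b b' →
  volume (Set.Icc x y ∩ Dv k s b ∩ Dv k s b') ≤
    ENNReal.ofReal (C * (y - x) * ((1 / 2 ^ k) * ((Nat.gcd b b' : ℝ) / (max b b' : ℕ)) + (1 / 2 ^ k) ^ 2))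

/-- `α b + s` is within 1 of a positive integer divisible by `2 ^ k` and coprime to `b` -/
def Gd (k : ℕ) (s : ℝ) (b : ℕ) : Set ℝ :=
  {α : ℝ | ∃ c : ℕ, 0 < c ∧ 2 ^ k ∣ c ∧ Nat.Coprime b c ∧ |α * b + s - c| ≤ 1}

/-- **12 FST** (Mathlib only). `c = 2 ^ k r`; the `r` with `[(c - s - 1) / b, (c - s + 1) / b] ⊆ [x, y]` are those of an
interval of length `R = ((y - x) b - 2) / 2 ^ k`, at least `(R - 1) - ∑ p ∣ b, (R / p + 1) ≥ R / 2 - ω - 1 ≥ R / 4` of them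
are coprime to the odd number `b`; these intervals of length `2 / b` are disjoint. -/
def S_FST : Prop := ∀ (k : ℕ) (s x y : ℝ) (b : ℕ), 3 ≤ k → 0 < x → x < y → 0 < b → ¬ 2 ∣ b →
  ∑ p ∈ b.primeFactors, 1 / (p : ℝ) ≤ 1 / 2 → |s| + 2 ≤ x * b →
  2 ^ k * (16 * ((b.primeFactors.card : ℝ) + 1)) ≤ (y - x) * b →
  ENNReal.ofReal ((y - x) * (1 / 2 ^ k) / 8) ≤ volume (Set.Icc x y ∩ Gd k s b)

/-- **13 PZ** (Cauchy-Schwarz for `∑ 1_{A i}`). -/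
def S_PZ : Prop := ∀ (x y : ℝ) (ι : Type) (I : Finset ι) (A : ι → Set ℝ), x < y → (∀ i ∈ I, MeasurableSet (A i)) →
  (∑ i ∈ I, (volume (Set.Icc x y ∩ A i)).toReal) ^ 2 ≤
    (volume (Set.Icc x y ∩ ⋃ i ∈ I, A i)).toReal * ∑ i ∈ I, ∑ j ∈ I, (volume (Set.Icc x y ∩ A i ∩ A j)).toReal

/-- the good pairs for `α` -/
def Good (c₀ s α : ℝ) (b c : ℕ) : Prop :=
  0 < b ∧ 0 < c ∧ Nat.Coprime b c ∧ |α * b + s - c| ≤ 1 ∧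
    c₀ * V c ≤ Real.log ((c : ℝ) / (rad (b * c) : ℝ))

/-- **14 LOC** (from FAM, NEAR, OVL, FST, PZ). `l` large, `B`, `n`, `Z` from FAM, `k` with
`2 ^ k ≤ #B e ^ (-n / 2) < 2 ^ (k + 1)`, `t` with `4 ^ k ≤ 3 ^ t < 3 * 4 ^ k`, `b = 3 ^ t b₁`, `A b = Gd k s b ⊆ Dv k s b`. First moment
`≥ #B (y - x) δ / 8`, second `≤ C (y - x) (#B δ exp (8 n e ^ (-l/2) + 8) + #B ^ 2 δ ^ 2)`, `#B δ ≥ e ^ (n / 2)`. For `α` in the union: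
`rad (b c) ≤ 3 Z * 2 c / 2 ^ k ≤ 12 c e ^ (-n / 2)`, `log c ≤ 4 e ^ (2 l) / l`, `V c ≤ 3 e ^ l / l`. -/
def S_LOC : Prop := ∃ c₀ C₁ : ℝ, 0 < c₀ ∧ 0 < C₁ ∧ ∀ (s x y : ℝ) (M : ℕ), 0 < x → x < y → y ≤ x + 1 →
  ENNReal.ofReal ((y - x) / C₁) ≤
    volume (Set.Icc x y ∩ {α : ℝ | ∃ b c : ℕ, M ≤ b ∧ Good c₀ s α b c})

/-- **15 LOW** (from LOC): decreasing intersection over `M` (the sets are countable unions of closed sets) and the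
density theorem (a measurable set with `volume (I ∩ S) ≥ |I| / C₁` for all small intervals in `(0, ∞)` has full measure
there; a lemma of this kind is in the starting library). -/
def S_LOW : Prop := ∃ c₀ : ℝ, 0 < c₀ ∧ ∀ s : ℝ, ∀ᵐ α ∂(volume.restrict (Set.Ioi (0 : ℝ))),
  {x : ℕ × ℕ | Good c₀ s α x.1 x.2}.Infinite

end Pool.Agent.D0H61.AB
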