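import Pool.Agent.D0H61.AB.Stm

/-!
# The exact order of the maximal quality for almost every coefficient: the two models

One coefficient: `|a + β b - c| ≤ K`, `a ≤ K b`. Dilations: `|α (a + b) - c| ≤ K`.
-/

set_option autoImplicit false

namespace Pool.Agent.D0H61.AB

open Filter Topology MeasureTheory Finset

/-- the log of `c / rad (abc)` is at least `u` times `V c` -/
lemma vol_Icc_inter (m d K : ℝ) (hm : 0 < m) (E : Set ℝ)
    (hE : ∀ β ∈ E, |β * m - d| ≤ K) : volume E ≤ ENNReal.ofReal (2 * K / m) := by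
  have hsub : E ⊆ Set.Icc ((d - K) / m) ((d + K) / m) := by
    intro β hβ
    have h := abs_le.mp (hE β hβ)
    constructor
    · rw [div_le_iff₀ hm]; linarith
    · rw [le_div_iff₀ hm]; linarith
  refine (measure_mono hsub).trans ?_
  rw [Real.volume_Icc]
  apply le_of_eq
  congr 1
  field_simp
  ring

/-- upper half, one coefficient -/
def S_U1 : Prop := ∀ᵐ β ∂(volume.restrict (Set.Ioi (0 : ℝ))), ∀ ε K : ℝ, 0 < ε →
  {t : ℕ × ℕ × ℕ | PC t ∧ (t.1 : ℝ) ≤ K * t.2.1 ∧ |(t.1 : ℝ) + β * t.2.1 - t.2.2| ≤ K ∧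
    (rad (t.1 * t.2.1 * t.2.2) : ℝ) ≤ t.2.2 * Real.exp (-(4 * Real.sqrt 3 + ε) * V t.2.2)}.Finite

/-- upper half, dilations -/
def S_U2 : Prop := ∀ᵐ α ∂(volume.restrict (Set.Ioi (0 : ℝ))), ∀ ε K : ℝ, 0 < ε →
  {t : ℕ × ℕ × ℕ | PC t ∧ |α * ((t.1 : ℝ) + t.2.1) - t.2.2| ≤ K ∧
    (rad (t.1 * t.2.1 * t.2.2) : ℝ) ≤ t.2.2 * Real.exp (-(4 * Real.sqrt 3 + ε) * V t.2.2)}.Finite

lemma V_nonneg (c : ℝ) : 0 ≤ V c := Real.sqrt_nonneg _

/-- reduction of the quantifiers: it suffices to treat `ε = 1 / (n + 1)`, natural `K` and a compact interval -/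
lemma ae_reduce (P : ℝ → ℝ → ℕ × ℕ × ℕ → Prop) (hP : ∀ x K K' t, K ≤ K' → P x K t → P x K' t)
    (h : ∀ (R : ℕ) (ε : ℝ), 1 ≤ R → 0 < ε → ∀ᵐ x ∂(volume.restrict (Set.Icc (1 / (R : ℝ)) R)),
      {t : ℕ × ℕ × ℕ | PC t ∧ P x R t ∧
        (rad (t.1 * t.2.1 * t.2.2) : ℝ) ≤ t.2.2 * Real.exp (-(4 * Real.sqrt 3 + ε) * V t.2.2)}.Finite) :
    ∀ᵐ x ∂(volume.restrict (Set.Ioi (0 : ℝ))), ∀ ε K : ℝ, 0 < ε →
      {t : ℕ × ℕ × ℕ | PC t ∧ P x K t ∧
        (rad (t.1 * t.2.1 * t.2.2) : ℝ) ≤ t.2.2 * Real.exp (-(4 * Real.sqrt 3 + ε) * V t.2.2)}.Finite := by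
  have h1 : ∀ᵐ x ∂(volume : Measure ℝ), ∀ R n : ℕ, 1 ≤ R → x ∈ Set.Icc (1 / (R : ℝ)) R →
      {t : ℕ × ℕ × ℕ | PC t ∧ P x R t ∧
        (rad (t.1 * t.2.1 * t.2.2) : ℝ) ≤
          t.2.2 * Real.exp (-(4 * Real.sqrt 3 + 1 / ((n : ℝ) + 1)) * V t.2.2)}.Finite := by
    rw [ae_all_iff]
    intro R
    rw [ae_all_iff]
    intro n
    by_cases hR : 1 ≤ R
    · have := h R (1 / ((n : ℝ) + 1)) hR (by positivity)
      rw [ae_restrict_iff' measurableSet_Icc] at this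
      filter_upwards [this] with x hx _ hx2
      exact hx hx2
    · exact Filter.Eventually.of_forall fun x hx => absurd hx hR
  rw [ae_restrict_iff' measurableSet_Ioi]
  filter_upwards [h1] with x hx hx0 ε K hε
  have hx0' : 0 < x := hx0
  obtain ⟨n, hn⟩ := exists_nat_one_div_lt hε
  obtain ⟨R, hR⟩ := exists_nat_ge (max (max x (1 / x)) (max K 1))
  have hR1 : (1 : ℝ) ≤ R := le_trans (le_trans (le_max_right _ _) (le_max_right _ _)) hR
  have hR1' : 1 ≤ R := by exact_mod_cast hR1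
  have hRx : x ≤ R := le_trans (le_trans (le_max_left _ _) (le_max_left _ _)) hR
  have hRx' : 1 / x ≤ R := le_trans (le_trans (le_max_right _ _) (le_max_left _ _)) hR
  have hRK : K ≤ R := le_trans (le_trans (le_max_left _ _) (le_max_right _ _)) hR
  have hmem : x ∈ Set.Icc (1 / (R : ℝ)) R := by
    refine ⟨?_, hRx⟩
    rw [div_le_iff₀ (by linarith)]
    rw [div_le_iff₀ hx0'] at hRx'
    linarith
  refine (hx R n hR1' hmem).subset ?_
  rintro t ⟨h2, h3, h4⟩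
  refine ⟨h2, hP x K R t hRK h3, h4.trans ?_⟩
  have hc : (0 : ℝ) ≤ t.2.2 := Nat.cast_nonneg _
  apply mul_le_mul_of_nonneg_left _ hc
  apply Real.exp_le_exp.mpr
  have := V_nonneg (t.2.2 : ℝ)
  nlinarith

theorem t_U1 : S_UP → S_U1 := by
  intro hUP
  unfold S_U1
  have key := ae_reduce (fun β K t => (t.1 : ℝ) ≤ K * t.2.1 ∧ |(t.1 : ℝ) + β * t.2.1 - t.2.2| ≤ K)
    (by
      rintro x K K' t hK ⟨h1, h2⟩
      refine ⟨h1.trans ?_, h2.trans hK⟩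
      exact mul_le_mul_of_nonneg_right hK (Nat.cast_nonneg _)) ?_
  · filter_upwards [key] with β hβ ε K hε
    refine (hβ ε K hε).subset ?_
    rintro t ⟨h1, h2, h3, h4⟩
    exact ⟨h1, ⟨h2, h3⟩, h4⟩
  · intro R ε hR hε
    have hR' : (1 : ℝ) ≤ R := by exact_mod_cast hR
    have hUP' := hUP ℝ (volume.restrict (Set.Icc (1 / (R : ℝ)) R))
      (fun t => {β : ℝ | (t.1 : ℝ) ≤ R * t.2.1 ∧ |(t.1 : ℝ) + β * t.2.1 - t.2.2| ≤ R}) (6 * R ^ 2) ε
      (by nlinarith) hε ?_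
    · filter_upwards [hUP', ae_restrict_mem measurableSet_Icc] with β hβ hmem
      refine hβ.subset ?_
      rintro t ⟨h1, ⟨h2, h3⟩, h4⟩
      have h5 := abs_le.mp h3
      have hb1 : (1 : ℝ) ≤ t.2.1 := by exact_mod_cast h1.2.1
      have hc1 : (1 : ℝ) ≤ t.2.2 := by exact_mod_cast h1.2.2.1
      have ha1 : (1 : ℝ) ≤ t.1 := by exact_mod_cast h1.1
      have hRpos : (0 : ℝ) < R := by linarith
      have hβ1 : 1 / (R : ℝ) ≤ β := hmem.1
      have hβ2 : 1 ≤ β * R := by rwa [div_le_iff₀ hRpos] at hβ1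
      have hβ0 : 0 < β := lt_of_lt_of_le (by positivity) hβ1
      -- a ≤ c + R, β b ≤ c + R
      have hac : (t.1 : ℝ) ≤ t.2.2 + R := by
        have : 0 ≤ β * t.2.1 := by positivity
        linarith
      have hbc : (t.2.1 : ℝ) ≤ R * (t.2.2 + R) := by
        have h6 : β * t.2.1 ≤ t.2.2 + R := by linarith
        calc (t.2.1 : ℝ) ≤ (β * R) * t.2.1 := by nlinarith
          _ = R * (β * t.2.1) := by ring
          _ ≤ R * (t.2.2 + R) := by nlinarith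
      have hR2 : (1 : ℝ) ≤ R ^ 2 := one_le_pow₀ hR'
      have hq2 : (R : ℝ) ≤ R ^ 2 := by nlinarith
      have hq1 : (t.2.2 : ℝ) ≤ R ^ 2 * t.2.2 := le_mul_of_one_le_left (by linarith) hR2
      have hq3 : (R : ℝ) ^ 2 ≤ R ^ 2 * t.2.2 := le_mul_of_one_le_right (by positivity) hc1
      have hq4 : (R : ℝ) * t.2.2 ≤ R ^ 2 * t.2.2 := mul_le_mul_of_nonneg_right hq2 (by linarith)
      refine ⟨h1, ?_, ?_, ⟨h2, h3⟩, h4⟩
      · nlinarith
      · nlinarith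
    · intro t ht
      have hb1 : (1 : ℝ) ≤ t.2.1 := by exact_mod_cast ht.2.1
      have hc1 : (1 : ℝ) ≤ t.2.2 := by exact_mod_cast ht.2.2.1
      rw [Measure.restrict_apply']
      swap
      · exact measurableSet_Icc
      by_cases hne : ({β : ℝ | (t.1 : ℝ) ≤ R * t.2.1 ∧ |(t.1 : ℝ) + β * t.2.1 - t.2.2| ≤ R} ∩
          Set.Icc (1 / (R : ℝ)) R) = ∅
      · rw [hne]; simp
      · obtain ⟨β, ⟨h2, h3⟩, h4⟩ := Set.nonempty_iff_ne_empty.mpr hne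
        have h5 := abs_le.mp h3
        have hcb : (t.2.2 : ℝ) ≤ 3 * R * t.2.1 := by
          have h6 : β * t.2.1 ≤ R * t.2.1 := by
            apply mul_le_mul_of_nonneg_right h4.2; linarith
          nlinarith
        refine (vol_Icc_inter (t.2.1 : ℝ) ((t.2.2 : ℝ) - t.1) R (by linarith) _ ?_).trans ?_
        · rintro β' ⟨⟨_, h7⟩, _⟩
          rw [show β' * (t.2.1 : ℝ) - ((t.2.2 : ℝ) - t.1) = t.1 + β' * t.2.1 - t.2.2 by ring]
          exact h7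
        · apply ENNReal.ofReal_le_ofReal
          rw [div_le_div_iff₀ (by linarith) (by linarith)]
          nlinarith

theorem t_U2 : S_UP → S_U2 := by
  intro hUP
  unfold S_U2
  have key := ae_reduce (fun α K t => |α * ((t.1 : ℝ) + t.2.1) - t.2.2| ≤ K)
    (fun x K K' t hK h => h.trans hK) ?_
  · exact key
  · intro R ε hR hε
    have hR' : (1 : ℝ) ≤ R := by exact_mod_cast hR
    have hUP' := hUP ℝ (volume.restrict (Set.Icc (1 / (R : ℝ)) R))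
      (fun t => {α : ℝ | |α * ((t.1 : ℝ) + t.2.1) - t.2.2| ≤ R}) (6 * R ^ 2) ε
      (by nlinarith) hε ?_
    · filter_upwards [hUP', ae_restrict_mem measurableSet_Icc] with α hα hmem
      refine hα.subset ?_
      rintro t ⟨h1, h3, h4⟩
      have h5 := abs_le.mp h3
      have hb1 : (1 : ℝ) ≤ t.2.1 := by exact_mod_cast h1.2.1
      have hc1 : (1 : ℝ) ≤ t.2.2 := by exact_mod_cast h1.2.2.1
      have ha1 : (1 : ℝ) ≤ t.1 := by exact_mod_cast h1.1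
      have hRpos : (0 : ℝ) < R := by linarith
      have hβ1 : 1 / (R : ℝ) ≤ α := hmem.1
      have hβ2 : 1 ≤ α * R := by rwa [div_le_iff₀ hRpos] at hβ1
      have hβ0 : 0 < α := lt_of_lt_of_le (by positivity) hβ1
      have hbc : (t.1 : ℝ) + t.2.1 ≤ R * (t.2.2 + R) := by
        have h6 : α * (t.1 + t.2.1) ≤ t.2.2 + R := by linarith
        calc (t.1 : ℝ) + t.2.1 ≤ (α * R) * (t.1 + t.2.1) := by nlinarith
          _ = R * (α * (t.1 + t.2.1)) := by ring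
          _ ≤ R * (t.2.2 + R) := by nlinarith
      have hR2 : (1 : ℝ) ≤ R ^ 2 := one_le_pow₀ hR'
      have hq2 : (R : ℝ) ≤ R ^ 2 := by nlinarith
      have hq1 : (t.2.2 : ℝ) ≤ R ^ 2 * t.2.2 := le_mul_of_one_le_left (by linarith) hR2
      have hq3 : (R : ℝ) ^ 2 ≤ R ^ 2 * t.2.2 := le_mul_of_one_le_right (by positivity) hc1
      have hq4 : (R : ℝ) * t.2.2 ≤ R ^ 2 * t.2.2 := mul_le_mul_of_nonneg_right hq2 (by linarith)
      refine ⟨h1, ?_, ?_, h3, h4⟩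
      · nlinarith
      · nlinarith
    · intro t ht
      have hb1 : (1 : ℝ) ≤ t.2.1 := by exact_mod_cast ht.2.1
      have hc1 : (1 : ℝ) ≤ t.2.2 := by exact_mod_cast ht.2.2.1
      have ha1 : (1 : ℝ) ≤ t.1 := by exact_mod_cast ht.1
      rw [Measure.restrict_apply']
      swap
      · exact measurableSet_Icc
      by_cases hne : ({α : ℝ | |α * ((t.1 : ℝ) + t.2.1) - t.2.2| ≤ R} ∩ Set.Icc (1 / (R : ℝ)) R) = ∅
      · rw [hne]; simp
      · obtain ⟨α, h3, h4⟩ := Set.nonempty_iff_ne_empty.mpr hne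
        have h5 := abs_le.mp (show |α * ((t.1 : ℝ) + t.2.1) - t.2.2| ≤ R from h3)
        have hcb : (t.2.2 : ℝ) ≤ 3 * R * (t.1 + t.2.1) := by
          have h6 : α * (t.1 + t.2.1) ≤ R * (t.1 + t.2.1) := by
            apply mul_le_mul_of_nonneg_right h4.2; linarith
          nlinarith
        refine (vol_Icc_inter ((t.1 : ℝ) + t.2.1) (t.2.2 : ℝ) R (by linarith) _ ?_).trans ?_
        · rintro β' ⟨h7, _⟩
          exact h7
        · apply ENNReal.ofReal_le_ofReal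
          rw [div_le_div_iff₀ (by linarith) (by linarith)]
          nlinarith

/-- lower half, one coefficient -/
def S_L1 : Prop := ∃ c₀ : ℝ, 0 < c₀ ∧ ∀ᵐ β ∂(volume.restrict (Set.Ioi (0 : ℝ))),
  {t : ℕ × ℕ × ℕ | PC t ∧ t.1 ≤ t.2.1 ∧ |(t.1 : ℝ) + β * t.2.1 - t.2.2| ≤ 1 ∧
    (rad (t.1 * t.2.1 * t.2.2) : ℝ) ≤ t.2.2 * Real.exp (-c₀ * V t.2.2)}.Infinite

/-- lower half, dilations -/
def S_L2 : Prop := ∃ c₀ : ℝ, 0 < c₀ ∧ ∀ᵐ α ∂(volume.restrict (Set.Ioi (0 : ℝ))),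
  {t : ℕ × ℕ × ℕ | PC t ∧ |α * ((t.1 : ℝ) + t.2.1) - t.2.2| ≤ 2 ∧
    (rad (t.1 * t.2.1 * t.2.2) : ℝ) ≤ t.2.2 * Real.exp (-c₀ * V t.2.2)}.Infinite

lemma rad_pos (n : ℕ) : 0 < rad n :=
  Finset.prod_pos fun _ hp => (Nat.prime_of_mem_primeFactors hp).pos

lemma rad_le_of_log {c₀ : ℝ} {b c : ℕ} (hc : 0 < c)
    (h : c₀ * V c ≤ Real.log ((c : ℝ) / (rad (b * c) : ℝ))) :
    (rad (1 * b * c) : ℝ) ≤ c * Real.exp (-c₀ * V c) := by
  have hr : (0 : ℝ) < rad (b * c) := by exact_mod_cast rad_pos _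
  have hc' : (0 : ℝ) < c := by exact_mod_cast hc
  rw [one_mul, neg_mul, Real.exp_neg]
  have h2 : Real.exp (c₀ * V c) ≤ (c : ℝ) / rad (b * c) := by
    rwa [Real.le_log_iff_exp_le (by positivity)] at h
  rw [le_div_iff₀ hr] at h2
  have h3 := Real.exp_pos (c₀ * V c)
  rw [← div_eq_mul_inv, le_div_iff₀ h3]
  linarith

theorem t_L1 : S_LOW → S_L1 := by
  rintro ⟨c₀, hc₀, h⟩
  refine ⟨c₀, hc₀, ?_⟩
  filter_upwards [h 1] with β hβ
  have hinj : Set.InjOn (fun x : ℕ × ℕ => ((1, x.1, x.2) : ℕ × ℕ × ℕ))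
      {x : ℕ × ℕ | Good c₀ 1 β x.1 x.2} := by
    rintro ⟨a, b⟩ _ ⟨a', b'⟩ _ h
    simp only [Prod.mk.injEq, true_and] at h
    exact Prod.ext h.1 h.2
  refine (hβ.image hinj).mono ?_
  rintro _ ⟨⟨b, c⟩, ⟨h1, h2, h3, h4, h5⟩, rfl⟩
  simp only at h1 h2 h3 h4 h5
  refine ⟨⟨Nat.one_pos, h1, h2, Nat.coprime_one_left b, Nat.coprime_one_left c, h3⟩, h1, ?_,
    rad_le_of_log h2 h5⟩
  have : ((1 : ℕ) : ℝ) + β * (b : ℝ) - c = β * b + 1 - c := by push_cast; ring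
  simp only
  rw [this]
  exact h4

theorem t_L2 : S_LOW → S_L2 := by
  rintro ⟨c₀, hc₀, h⟩
  refine ⟨c₀, hc₀, ?_⟩
  have h' : ∀ᵐ α ∂(volume.restrict (Set.Ioi (0 : ℝ))), ∀ q : ℕ,
      {x : ℕ × ℕ | Good c₀ q α x.1 x.2}.Infinite := by
    rw [ae_all_iff]
    exact fun q => h q
  filter_upwards [h', ae_restrict_mem measurableSet_Ioi] with α hα hα0
  have hα0' : 0 < α := hα0
  have hinj : Set.InjOn (fun x : ℕ × ℕ => ((1, x.1, x.2) : ℕ × ℕ × ℕ))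
      {x : ℕ × ℕ | Good c₀ (⌊α⌋₊ : ℕ) α x.1 x.2} := by
    rintro ⟨a, b⟩ _ ⟨a', b'⟩ _ h
    simp only [Prod.mk.injEq, true_and] at h
    exact Prod.ext h.1 h.2
  refine ((hα ⌊α⌋₊).image hinj).mono ?_
  rintro _ ⟨⟨b, c⟩, ⟨h1, h2, h3, h4, h5⟩, rfl⟩
  simp only at h1 h2 h3 h4 h5
  refine ⟨⟨Nat.one_pos, h1, h2, Nat.coprime_one_left b, Nat.coprime_one_left c, h3⟩, ?_,
    rad_le_of_log h2 h5⟩
  simp only
  have hf1 := Nat.floor_le hα0'.le
  have hf2 := Nat.lt_floor_add_one α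
  have h6 := abs_le.mp h4
  rw [abs_le]
  push_cast
  constructor <;> nlinarith

end Pool.Agent.D0H61.AB
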