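import Pool.Agent.D0H61.AB.Stm2

/-!
# From local positive proportion to almost everywhere
-/

set_option autoImplicit false

namespace Pool.Agent.D0H61.AB

open Filter Topology MeasureTheory Finset

/-- the numbers with a good pair `b ≥ M` -/
def GM (c₀ s : ℝ) (M : ℕ) : Set ℝ := {α : ℝ | ∃ b c : ℕ, M ≤ b ∧ Good c₀ s α b c}

lemma meas_GM (c₀ s : ℝ) (M : ℕ) : MeasurableSet (GM c₀ s M) := by
  have : GM c₀ s M = ⋃ b : ℕ, ⋃ c : ℕ, {α : ℝ | M ≤ b ∧ Good c₀ s α b c} := by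
    ext α
    simp only [GM, Set.mem_ofPred_eq, Set.mem_iUnion]
  rw [this]
  refine MeasurableSet.iUnion fun b => MeasurableSet.iUnion fun c => ?_
  by_cases h : M ≤ b ∧ 0 < b ∧ 0 < c ∧ Nat.Coprime b c ∧
      c₀ * V c ≤ Real.log ((c : ℝ) / (rad (b * c) : ℝ))
  · have h2 : {α : ℝ | M ≤ b ∧ Good c₀ s α b c} = {α : ℝ | |α * b + s - c| ≤ 1} := by
      ext α
      simp only [Good, Set.mem_ofPred_eq]
      constructor
      · rintro ⟨_, _, _, _, h3, _⟩
        exact h3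
      · intro h3
        exact ⟨h.1, h.2.1, h.2.2.1, h.2.2.2.1, h3, h.2.2.2.2⟩
    rw [h2]
    apply IsClosed.measurableSet
    exact isClosed_le (by fun_prop) continuous_const
  · have h2 : {α : ℝ | M ≤ b ∧ Good c₀ s α b c} = ∅ := by
      ext α
      simp only [Good, Set.mem_ofPred_eq, Set.mem_empty_iff_false, iff_false]
      rintro ⟨h3, h4, h5, h6, _, h7⟩
      exact h ⟨h3, h4, h5, h6, h7⟩
    rw [h2]
    exact MeasurableSet.empty

theorem low_fixed (c₀ C₁ s : ℝ) (hC₁ : 0 < C₁)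
    (h : ∀ (x y : ℝ) (M : ℕ), 0 < x → x < y → y ≤ x + 1 →
      ENNReal.ofReal ((y - x) / C₁) ≤
        volume (Set.Icc x y ∩ {α : ℝ | ∃ b c : ℕ, M ≤ b ∧ Good c₀ s α b c})) :
    ∀ᵐ α ∂(volume.restrict (Set.Ioi (0 : ℝ))), {x : ℕ × ℕ | Good c₀ s α x.1 x.2}.Infinite := by
  have h1 : ∀ M : ℕ, ∀ᵐ α : ℝ, 0 < α → α ∈ GM c₀ s M := by
    intro M
    filter_upwards [Besicovitch.ae_tendsto_measure_inter_div_of_measurableSet volume
      (meas_GM c₀ s M)] with α hα hα0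
    by_contra hcon
    rw [Set.indicator_of_notMem hcon] at hα
    have h2 : ENNReal.ofReal (1 / C₁) ≤ 0 := by
      refine ge_of_tendsto hα ?_
      have h3 : Set.Ioo (0 : ℝ) (min α (1 / 2)) ∈ 𝓝[>] (0 : ℝ) :=
        Ioo_mem_nhdsGT (lt_min hα0 (by norm_num))
      filter_upwards [h3] with r hr
      have hr0 : 0 < r := hr.1
      have hr1 : r < α := lt_of_lt_of_le hr.2 (min_le_left _ _)
      have hr2 : r < 1 / 2 := lt_of_lt_of_le hr.2 (min_le_right _ _)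
      have h4 := h (α - r) (α + r) M (by linarith) (by linarith) (by linarith)
      rw [Real.closedBall_eq_Icc, Set.inter_comm, Real.volume_Icc]
      rw [ENNReal.le_div_iff_mul_le (Or.inl (by
        rw [Ne, ENNReal.ofReal_eq_zero, not_le]; linarith)) (Or.inl ENNReal.ofReal_ne_top)]
      refine le_trans (le_of_eq ?_) h4
      rw [← ENNReal.ofReal_mul (by positivity)]
      congr 1
      ring
    rw [nonpos_iff_eq_zero, ENNReal.ofReal_eq_zero] at h2
    have : 0 < 1 / C₁ := by positivity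
    linarith
  have h5 : ∀ᵐ α : ℝ, ∀ M : ℕ, 0 < α → α ∈ GM c₀ s M := by
    rw [ae_all_iff]
    exact h1
  rw [ae_restrict_iff' measurableSet_Ioi]
  filter_upwards [h5] with α hα hα0
  intro hfin
  obtain ⟨M, hM⟩ := (hfin.image Prod.fst).bddAbove
  obtain ⟨b, c, hb, hg⟩ := hα (M + 1) hα0
  have : b ≤ M := hM ⟨(b, c), hg, rfl⟩
  omega

theorem t_LOW : S_LOC → S_LOW := by
  rintro ⟨c₀, C₁, hc₀, hC₁, h⟩
  exact ⟨c₀, hc₀, fun s => low_fixed c₀ C₁ s hC₁ fun x y M => h s x y M⟩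

theorem t_LOW2 : S_LOC2 → S_LOW2 := by
  intro h ε hε s
  obtain ⟨C₁, hC₁, h1⟩ := h ε hε
  exact low_fixed _ C₁ s hC₁ fun x y M => h1 s x y M

end Pool.Agent.D0H61.AB
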