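import Pool.Agent.D0H61.AB.Fms
import Pool.Agent.D0H13.AB.Bnd
import Pool.Agent.D0H20.AB.Pr
import Pool.Agent.D0H52.AB.Mer
import Pool.Agent.D0H42.AB.M3
import Pool.Agent.D0H5.AB.Eul
import Pool.Agent.D0H9.AB.Cnt
import Pool.Agent.D0H9.AB.Pz
import Pool.Agent.D0H65.AB.Up
import Pool.Agent.D0H31.AB.Cheb
import Pool.Agent.D0H8.AB.Fam
import Pool.Agent.D0H62.AB.Near
import Pool.Agent.D0H22.AB.Ovl
import Pool.Agent.D0H92.AB.Fst
import Pool.Agent.D0H25.AB.Loc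
import Pool.Agent.D0H61.AB.LowG

/-!
# The exact order of the maximal quality: assembly
-/

set_option autoImplicit false

namespace Pool.Agent.D0H61.AB

theorem aPR : S_PR := Pool.Agent.D0H20.AB.t_PR Pool.Agent.D0H52.AB.t_MER

theorem aBND : S_BND := Pool.Agent.D0H13.AB.t_BND aPR Pool.Agent.D0H42.AB.t_M3 Pool.Agent.D0H5.AB.t_EUL
  Pool.Agent.D0H9.AB.t_CNT

theorem aUP : S_UP := Pool.Agent.D0H65.AB.t_UP aBND

theorem aLOC : S_LOC := Pool.Agent.D0H25.AB.t_LOC (Pool.Agent.D0H8.AB.t_FAM Pool.Agent.D0H31.AB.t_CHEB)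
  Pool.Agent.D0H62.AB.t_NEAR Pool.Agent.D0H22.AB.t_OVL Pool.Agent.D0H92.AB.t_FST Pool.Agent.D0H9.AB.t_PZ

theorem aLOW : S_LOW := t_LOW aLOC

end Pool.Agent.D0H61.AB
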