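import Pool.Agent.D0H61.AB.All
import Pool.Agent.D0H31.AB.Loc2
import Pool.Agent.D0H8.AB.Fam2
import Pool.Agent.D0H31.AB.Pntb
import Pool.Agent.D0H9.AB.Simp
import Pool.Agent.D0H42.AB.Bin

/-!
# The lower half with the constant `2 √2 - ε`: assembly
-/

set_option autoImplicit false

namespace Pool.Agent.D0H61.AB

theorem aFAM2 : S_FAM2 := Pool.Agent.D0H8.AB.t_FAM2 Pool.Agent.D0H31.AB.t_PNTB Pool.Agent.D0H9.AB.t_SIMP
  Pool.Agent.D0H42.AB.t_BIN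

theorem aLOC2 : S_LOC2 := Pool.Agent.D0H31.AB.t_LOC2 aFAM2 Pool.Agent.D0H62.AB.t_NEAR Pool.Agent.D0H22.AB.t_OVL
  Pool.Agent.D0H92.AB.t_FST Pool.Agent.D0H9.AB.t_PZ

theorem aLOW2 : S_LOW2 := t_LOW2 aLOC2

end Pool.Agent.D0H61.AB
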