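import Pool.Agent.D0H61.AB.Geo
import Pool.Agent.D0H61.AB.Stm2

/-!
# The exact order of the maximal quality: final forms
-/

set_option autoImplicit false

namespace Pool.Agent.D0H61.AB

open Filter Topology MeasureTheory Finset

/-- pairwise coprime triples, `c > 2`, with `α (a + b)` close to `c` -/
def CloseA (α K : ℝ) : Set (ℕ × ℕ × ℕ) :=
  {t | 0 < t.1 ∧ 0 < t.2.1 ∧ 2 < t.2.2 ∧ t.1.Coprime t.2.1 ∧ t.1.Coprime t.2.2 ∧ t.2.1.Coprime t.2.2 ∧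
    |α * ((t.1 : ℝ) + t.2.1) - t.2.2| ≤ K}

/-- pairwise coprime triples, `c > 2`, `a ≤ K b`, with `a + β b` close to `c` -/
def CloseB (β K : ℝ) : Set (ℕ × ℕ × ℕ) :=
  {t | 0 < t.1 ∧ 0 < t.2.1 ∧ 2 < t.2.2 ∧ t.1.Coprime t.2.1 ∧ t.1.Coprime t.2.2 ∧ t.2.1.Coprime t.2.2 ∧
    (t.1 : ℝ) ≤ K * t.2.1 ∧ |(t.1 : ℝ) + β * t.2.1 - t.2.2| ≤ K}

lemma le_of_log_ge {κ : ℝ} {t : ℕ × ℕ × ℕ} (hc : 0 < t.2.2)
    (h : κ * Real.sqrt (Real.log t.2.2 / Real.log (Real.log t.2.2)) ≤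
      Real.log ((t.2.2 : ℝ) / ((∏ p ∈ (t.1 * t.2.1 * t.2.2).primeFactors, p : ℕ) : ℝ))) :
    (rad (t.1 * t.2.1 * t.2.2) : ℝ) ≤ t.2.2 * Real.exp (-κ * V t.2.2) := by
  have hr : (0 : ℝ) < rad (t.1 * t.2.1 * t.2.2) := by exact_mod_cast rad_pos _
  have hc' : (0 : ℝ) < t.2.2 := by exact_mod_cast hc
  change κ * V t.2.2 ≤ Real.log ((t.2.2 : ℝ) / (rad (t.1 * t.2.1 * t.2.2) : ℝ)) at h
  rw [neg_mul, Real.exp_neg]
  have h2 : Real.exp (κ * V t.2.2) ≤ (t.2.2 : ℝ) / rad (t.1 * t.2.1 * t.2.2) := by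
    rwa [Real.le_log_iff_exp_le (by positivity)] at h
  rw [le_div_iff₀ hr] at h2
  have h3 := Real.exp_pos (κ * V t.2.2)
  rw [← div_eq_mul_inv, le_div_iff₀ h3]
  linarith

/-- **upper half, dilations** -/
theorem main_U (hUP : S_UP) : ∀ᵐ α : ℝ, 0 < α → ∀ K ε : ℝ, 0 < ε →
    {t ∈ CloseA α K | (4 * Real.sqrt 3 + ε) * Real.sqrt (Real.log t.2.2 / Real.log (Real.log t.2.2)) ≤
      Real.log ((t.2.2 : ℝ) / ((∏ p ∈ (t.1 * t.2.1 * t.2.2).primeFactors, p : ℕ) : ℝ))}.Finite := by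
  have h := t_U2 hUP
  unfold S_U2 at h
  rw [ae_restrict_iff' measurableSet_Ioi] at h
  filter_upwards [h] with α hα hα0 K ε hε
  refine (hα hα0 ε K hε).subset ?_
  rintro t ⟨⟨h1, h2, h3, h4, h5, h6, h7⟩, h8⟩
  exact ⟨⟨h1, h2, by omega, h4, h5, h6⟩, h7, le_of_log_ge (by omega) h8⟩

/-- **upper half, one coefficient** -/
theorem main_U1 (hUP : S_UP) : ∀ᵐ β : ℝ, 0 < β → ∀ K ε : ℝ, 0 < ε →
    {t ∈ CloseB β K | (4 * Real.sqrt 3 + ε) * Real.sqrt (Real.log t.2.2 / Real.log (Real.log t.2.2)) ≤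
      Real.log ((t.2.2 : ℝ) / ((∏ p ∈ (t.1 * t.2.1 * t.2.2).primeFactors, p : ℕ) : ℝ))}.Finite := by
  have h := t_U1 hUP
  unfold S_U1 at h
  rw [ae_restrict_iff' measurableSet_Ioi] at h
  filter_upwards [h] with α hα hα0 K ε hε
  refine (hα hα0 ε K hε).subset ?_
  rintro t ⟨⟨h1, h2, h3, h4, h5, h6, h7, h8⟩, h9⟩
  exact ⟨⟨h1, h2, by omega, h4, h5, h6⟩, h7, h8, le_of_log_ge (by omega) h9⟩

lemma good_large {κ s α : ℝ} (hα : 0 < α) (h : {x : ℕ × ℕ | Good κ s α x.1 x.2}.Infinite) :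
    {x : ℕ × ℕ | Good κ s α x.1 x.2 ∧ 2 < x.2}.Infinite := by
  have hfin : {x : ℕ × ℕ | Good κ s α x.1 x.2 ∧ x.2 ≤ 2}.Finite := by
    refine ((Set.finite_Iic ⌈(3 + |s|) / α⌉₊).prod (Set.finite_Iic 2)).subset ?_
    rintro ⟨b, c⟩ ⟨⟨h1, h2, h3, h4, h5⟩, h6⟩
    simp only at h1 h2 h3 h4 h5 h6
    refine ⟨?_, h6⟩
    rw [Set.mem_Iic]
    have h7 := (abs_le.mp h4).2
    have h8 : (c : ℝ) ≤ 2 := by exact_mod_cast h6
    have h9 := neg_abs_le s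
    have h10 : (b : ℝ) ≤ (3 + |s|) / α := by
      rw [le_div_iff₀ hα]
      nlinarith
    exact_mod_cast h10.trans (Nat.le_ceil _)
  refine (h.sdiff hfin).mono ?_
  rintro x ⟨hx1, hx2⟩
  refine ⟨hx1, ?_⟩
  by_contra hcon
  exact hx2 ⟨hx1, by omega⟩

lemma infinite_A {κ α : ℝ} (hα : 0 < α) (h : ∀ q : ℕ, {x : ℕ × ℕ | Good κ q α x.1 x.2}.Infinite) :
    {t ∈ CloseA α 2 | κ * Real.sqrt (Real.log t.2.2 / Real.log (Real.log t.2.2)) ≤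
      Real.log ((t.2.2 : ℝ) / ((∏ p ∈ (t.1 * t.2.1 * t.2.2).primeFactors, p : ℕ) : ℝ))}.Infinite := by
  have hinj : Set.InjOn (fun x : ℕ × ℕ => ((1, x.1, x.2) : ℕ × ℕ × ℕ))
      {x : ℕ × ℕ | Good κ (⌊α⌋₊ : ℕ) α x.1 x.2 ∧ 2 < x.2} := by
    rintro ⟨a, b⟩ _ ⟨a', b'⟩ _ h
    simp only [Prod.mk.injEq, true_and] at h
    exact Prod.ext h.1 h.2
  refine ((good_large hα (h ⌊α⌋₊)).image hinj).mono ?_
  rintro _ ⟨⟨b, c⟩, ⟨⟨h1, h2, h3, h4, h5⟩, h6⟩, rfl⟩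
  simp only at h1 h2 h3 h4 h5 h6
  refine ⟨⟨Nat.one_pos, h1, h6, Nat.coprime_one_left b, Nat.coprime_one_left c, h3, ?_⟩, ?_⟩
  · simp only
    have hf1 := Nat.floor_le hα.le
    have hf2 := Nat.lt_floor_add_one α
    have h7 := abs_le.mp h4
    rw [abs_le]
    push_cast
    constructor <;> nlinarith
  · simp only [one_mul]
    exact h5

lemma infinite_B {κ β : ℝ} (hβ : 0 < β) (h : {x : ℕ × ℕ | Good κ 1 β x.1 x.2}.Infinite) :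
    {t ∈ CloseB β 1 | κ * Real.sqrt (Real.log t.2.2 / Real.log (Real.log t.2.2)) ≤
      Real.log ((t.2.2 : ℝ) / ((∏ p ∈ (t.1 * t.2.1 * t.2.2).primeFactors, p : ℕ) : ℝ))}.Infinite := by
  have hinj : Set.InjOn (fun x : ℕ × ℕ => ((1, x.1, x.2) : ℕ × ℕ × ℕ))
      {x : ℕ × ℕ | Good κ 1 β x.1 x.2 ∧ 2 < x.2} := by
    rintro ⟨a, b⟩ _ ⟨a', b'⟩ _ h
    simp only [Prod.mk.injEq, true_and] at h
    exact Prod.ext h.1 h.2
  refine ((good_large hβ h).image hinj).mono ?_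
  rintro _ ⟨⟨b, c⟩, ⟨⟨h1, h2, h3, h4, h5⟩, h6⟩, rfl⟩
  simp only at h1 h2 h3 h4 h5 h6
  refine ⟨⟨Nat.one_pos, h1, h6, Nat.coprime_one_left b, Nat.coprime_one_left c, h3, ?_, ?_⟩, ?_⟩
  · simp only [Nat.cast_one, one_mul]
    exact_mod_cast h1
  · simp only
    rw [show ((1 : ℕ) : ℝ) + β * (b : ℝ) - c = β * b + 1 - c by push_cast; ring]
    exact h4
  · simp only [one_mul]
    exact h5

/-- **lower half, dilations** -/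
theorem main_L (hL : S_LOW) : ∃ c₀ : ℝ, 0 < c₀ ∧ ∀ᵐ α : ℝ, 0 < α →
    {t ∈ CloseA α 2 | c₀ * Real.sqrt (Real.log t.2.2 / Real.log (Real.log t.2.2)) ≤
      Real.log ((t.2.2 : ℝ) / ((∏ p ∈ (t.1 * t.2.1 * t.2.2).primeFactors, p : ℕ) : ℝ))}.Infinite := by
  obtain ⟨c₀, hc₀, h⟩ := hL
  refine ⟨c₀, hc₀, ?_⟩
  have h' : ∀ᵐ α : ℝ, ∀ q : ℕ, 0 < α → {x : ℕ × ℕ | Good c₀ q α x.1 x.2}.Infinite := by
    rw [ae_all_iff]
    intro q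
    have := h q
    rwa [ae_restrict_iff' measurableSet_Ioi] at this
  filter_upwards [h'] with α hα hα0
  exact infinite_A hα0 fun q => hα q hα0

/-- **lower half, one coefficient** -/
theorem main_L1 (hL : S_LOW) : ∃ c₀ : ℝ, 0 < c₀ ∧ ∀ᵐ β : ℝ, 0 < β →
    {t ∈ CloseB β 1 | c₀ * Real.sqrt (Real.log t.2.2 / Real.log (Real.log t.2.2)) ≤
      Real.log ((t.2.2 : ℝ) / ((∏ p ∈ (t.1 * t.2.1 * t.2.2).primeFactors, p : ℕ) : ℝ))}.Infinite := by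
  obtain ⟨c₀, hc₀, h⟩ := hL
  refine ⟨c₀, hc₀, ?_⟩
  have h' := h 1
  rw [ae_restrict_iff' measurableSet_Ioi] at h'
  filter_upwards [h'] with β hβ hβ0
  exact infinite_B hβ0 (hβ hβ0)

/-- **lower half, dilations, explicit constant** -/
theorem main_L2 (hL : S_LOW2) : ∀ᵐ α : ℝ, 0 < α → ∀ ε : ℝ, 0 < ε →
    {t ∈ CloseA α 2 | (2 * Real.sqrt 2 - ε) * Real.sqrt (Real.log t.2.2 / Real.log (Real.log t.2.2)) ≤
      Real.log ((t.2.2 : ℝ) / ((∏ p ∈ (t.1 * t.2.1 * t.2.2).primeFactors, p : ℕ) : ℝ))}.Infinite := by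
  have h' : ∀ᵐ α : ℝ, ∀ n q : ℕ, 0 < α →
      {x : ℕ × ℕ | Good (2 * Real.sqrt 2 - 1 / ((n : ℝ) + 1)) q α x.1 x.2}.Infinite := by
    rw [ae_all_iff]
    intro n
    rw [ae_all_iff]
    intro q
    have := hL (1 / ((n : ℝ) + 1)) (by positivity) q
    rwa [ae_restrict_iff' measurableSet_Ioi] at this
  filter_upwards [h'] with α hα hα0 ε hε
  obtain ⟨n, hn⟩ := exists_nat_one_div_lt hε
  refine (infinite_A hα0 fun q => hα n q hα0).mono ?_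
  rintro t ⟨h1, h2⟩
  refine ⟨h1, le_trans ?_ h2⟩
  exact mul_le_mul_of_nonneg_right (by linarith) (Real.sqrt_nonneg _)

/-- **lower half, one coefficient, explicit constant** -/
theorem main_L3 (hL : S_LOW2) : ∀ᵐ β : ℝ, 0 < β → ∀ ε : ℝ, 0 < ε →
    {t ∈ CloseB β 1 | (2 * Real.sqrt 2 - ε) * Real.sqrt (Real.log t.2.2 / Real.log (Real.log t.2.2)) ≤
      Real.log ((t.2.2 : ℝ) / ((∏ p ∈ (t.1 * t.2.1 * t.2.2).primeFactors, p : ℕ) : ℝ))}.Infinite := by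
  have h' : ∀ᵐ β : ℝ, ∀ n : ℕ, 0 < β →
      {x : ℕ × ℕ | Good (2 * Real.sqrt 2 - 1 / ((n : ℝ) + 1)) 1 β x.1 x.2}.Infinite := by
    rw [ae_all_iff]
    intro n
    have := hL (1 / ((n : ℝ) + 1)) (by positivity) 1
    rwa [ae_restrict_iff' measurableSet_Ioi] at this
  filter_upwards [h'] with β hβ hβ0 ε hε
  obtain ⟨n, hn⟩ := exists_nat_one_div_lt hε
  refine (infinite_B hβ0 (hβ n hβ0)).mono ?_
  rintro t ⟨h1, h2⟩
  refine ⟨h1, le_trans ?_ h2⟩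
  exact mul_le_mul_of_nonneg_right (by linarith) (Real.sqrt_nonneg _)

end Pool.Agent.D0H61.AB
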